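import Pool.Agent.Helper81.CP2.Cut

/-! UNIT DIRECTIONS of a leaf the parameters of which are rescaled coordinates of the point. -/

set_option autoImplicit false

namespace Pool.Agent.Helper69.UDV

open Finset Filter Topology Matrix Pool.Agent.Helper69.RK Pool.Agent.Helper31.EC Pool.Agent.Helper31.EC.Sp
open Pool.Agent.Helper40.EL Pool.Agent.Helper84.MT Pool.Agent.Helper89.LX
open Pool.Agent.Helper63.FRT (h_celm_le celm_const)

noncomputable section

variable {S : Sp} {M : ℕ} {E : ℕ → ℕ}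

/-- digits of level `b` of the parameter of a leaf over the window `a` -/
theorem par_digits {Q : S.VV M} (l : Leaf S Q E) {a b : ℝ} (ha : 0 ≤ a) (hb : b ≤ 1) (ε : ℝ) (hε : 0 < ε) :
    ∀ᶠ k in UF, (l.e : ℝ) * (b - a) - ε ≤ h (fc (Setoid.ker (l.Y.cellv b k))) (l.win a k) / (S.F k).n := by
  obtain ⟨K, hK, hY⟩ := l.Y.bd
  have h1 := h_celm_le l.Y (fun _ => 0) (fun _ => a) (fun _ => ha) l.La (fun k => K k + K k) (hK.add hK) (by
    filter_upwards [hY] with k hk ω ω' x y _ _ i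
    rw [S.dl_zero, mul_one]
    exact (abs_sub _ _).trans (add_le_add (hk ω x i) (hk ω' y i))) (ε / 3) (by linarith)
  have h2 := h_celm_le l.Y (fun _ => b) (fun _ => 1) (fun _ => hb) (fun k => l.La k ⊓ Setoid.ker (l.Y.cellv b k))
    (fun _ => 1) (S.Sub_const zero_le_one) (Eventually.of_forall fun k ω ω' _ _ _ r i => by
      rw [one_mul]
      exact abs_sub_le_of_floor_eq (S.dl_pos b k) (congrFun r.2 i)) (ε / 3) (by linarith)
  have h3 := l.full.eventually (lt_mem_nhds (show (l.e : ℝ) - ε / 3 < l.e by linarith))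
  filter_upwards [h1, h2, h3] with k a1 a2 a3
  have hn := (S.F k).pos
  rw [celm_const] at a1 a2
  have e1 : ∑ _i : Fin l.e, (a - 0) = l.e * a := by simp
  have e2 : ∑ _i : Fin l.e, (1 - b) = l.e * (1 - b) := by
    rw [Finset.sum_const, Finset.card_univ, Fintype.card_fin, nsmul_eq_mul]
  rw [e1] at a1
  rw [e2] at a2
  set x1 := fc (Setoid.ker (l.Y.cellv 1 k)) with hx1
  set xa := fc (Setoid.ker (l.Y.cellv a k)) with hxa
  set xb := fc (Setoid.ker (l.Y.cellv b k)) with hxb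
  set L := fc (l.La k) with hL
  have ew : l.win a k = L ⊔ xa := fc_inf _ _
  have eb : fc (l.La k ⊓ Setoid.ker (l.Y.cellv b k)) = L ⊔ xb := fc_inf _ _
  rw [eb] at a2
  rw [ew]
  have b1 : h x1 L ≤ h (xa ⊔ (xb ⊔ x1)) L := h_mono (le_sup_right.trans le_sup_right)
  have b2 := h_chain xa (xb ⊔ x1) L
  have b3 := h_chain xb x1 (xa ⊔ L)
  have b4 : h x1 (xb ⊔ (xa ⊔ L)) ≤ h x1 (L ⊔ xb) := h_anti (sup_le (le_sup_right.trans le_sup_right) le_sup_left)
  have b5 : h xb (xa ⊔ L) = h xb (L ⊔ xa) := by rw [sup_comm]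
  rw [div_le_iff₀ hn] at a1 a2
  rw [lt_div_iff₀ hn] at a3
  rw [le_div_iff₀ hn]
  have e3 : ((l.e : ℝ) * (b - a) - ε) * (S.F k).n = ((l.e : ℝ) - ε / 3) * (S.F k).n -
      ((l.e : ℝ) * a + ε / 3) * (S.F k).n - ((l.e : ℝ) * (1 - b) + ε / 3) * (S.F k).n := by ring
  rw [e3]
  linarith

/-- UNIT DIRECTIONS: the parameters are rescaled coordinates of the point -/
theorem par_ud {Q : S.VV M} (l : Leaf S Q E) (τ : Fin l.e → Fin M) (N : ℕ → ℝ) (c : ∀ k, (S.F k).Ω → Fin l.e → ℤ)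
    (hN : S.Sub N) (h1 : ∀ᶠ k in UF, ∀ ω, (S.F k).μ ω ≠ 0 → ∀ i, l.Y.v k ω i = N k * Q.v k ω (τ i) - c k ω i)
    (h2 : ∀ᶠ k in UF, ∀ ω ω', (S.F k).μ ω ≠ 0 → (S.F k).μ ω' ≠ 0 → (S.F k).Z ω ω' → l.La k ω ω' → c k ω = c k ω')
    {a b : ℝ} (ha : 0 ≤ a) (hb : b ≤ 1) :
    (l.e : ℝ) * (b - a) ≤ ul (fun k => h (fc (Setoid.ker (Q.cellv b k))) (l.win a k) / (S.F k).n) := by
  have hBd : Part.Bd (S := S) (fun k => fc (Setoid.ker (Q.cellv b k))) := rpI_Bd (Q.bdd b).toInf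
  have h3 : PLe (fun k => fc (Setoid.ker (l.Y.cellv b k))) (fun k => fc (l.La k ⊓ Setoid.ker (Q.cellv b k))) := by
    apply PLe_cell l.Y b _ N hN
    filter_upwards [h1, h2, hN.1] with k a1 a2 a3 ω ω' x y z r i
    rw [a1 ω x i, a1 ω' y i, a2 ω ω' x y z r.1]
    have e1 : N k * Q.v k ω (τ i) - c k ω' i - (N k * Q.v k ω' (τ i) - c k ω' i) =
        N k * (Q.v k ω (τ i) - Q.v k ω' (τ i)) := by ring
    rw [e1, abs_mul, abs_of_nonneg a3]
    exact mul_le_mul_of_nonneg_left (abs_sub_le_of_floor_eq (S.dl_pos b k) (congrFun r.2 (τ i))) a3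
  apply le_of_forall_pos_le_add
  intro ε hε
  have h4 := par_digits l ha hb (ε / 2) (by linarith)
  have h5 := h3.eventually (gt_mem_nhds (show (0 : ℝ) < ε / 2 by linarith))
  have h6 : (l.e : ℝ) * (b - a) - ε ≤ ul (fun k => h (fc (Setoid.ker (Q.cellv b k))) (l.win a k) / (S.F k).n) := by
    apply const_le_ul (hBd.ub _)
    filter_upwards [h4, h5] with k a1 a2
    have hn := (S.F k).pos
    have b1 : h (fc (Setoid.ker (l.Y.cellv b k))) (l.win a k) ≤
        h (fc (Setoid.ker (Q.cellv b k))) (l.win a k) +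
          h (fc (Setoid.ker (l.Y.cellv b k))) (fc (l.La k ⊓ Setoid.ker (Q.cellv b k))) := by
      have c1 := h_mono (B := l.win a k) (le_sup_right (a := fc (Setoid.ker (Q.cellv b k)))
        (b := fc (Setoid.ker (l.Y.cellv b k))))
      rw [h_chain] at c1
      have c2 : fc (l.La k ⊓ Setoid.ker (Q.cellv b k)) ≤ fc (Setoid.ker (Q.cellv b k)) ⊔ l.win a k := by
        rw [fc_inf]
        refine sup_le ?_ le_sup_left
        refine le_trans ?_ le_sup_right
        show fc (l.La k) ≤ fc (l.La k ⊓ Setoid.ker (l.Y.cellv a k))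
        exact fc_mono inf_le_left
      have c3 := h_anti (A := fc (Setoid.ker (l.Y.cellv b k))) c2
      linarith
    rw [le_div_iff₀ hn] at a1
    rw [div_lt_iff₀ hn] at a2
    rw [le_div_iff₀ hn]
    have e1 : ((l.e : ℝ) * (b - a) - ε) * (S.F k).n = ((l.e : ℝ) * (b - a) - ε / 2) * (S.F k).n -
      ε / 2 * (S.F k).n := by ring
    rw [e1]
    linarith
  linarith

end

end Pool.Agent.Helper69.UDV
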