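import Pool.Agent.Helper87.NSL.St
import Pool.Agent.Helper69.UDV.Par

/-! [UDV]: the leaves over full coordinates have `v` unit directions, on all events of all extensions. -/

set_option autoImplicit false

namespace Pool.Agent.Helper69.UDV

open Finset Filter Topology Matrix Pool.Agent.Helper69.RK Pool.Agent.Helper31.EC Pool.Agent.Helper31.EC.Sp
open Pool.Agent.Helper40.EL Pool.Agent.Helper84.MT Pool.Agent.Helper89.LX
open Pool.Agent.Helper76.DIM (CutF VLeaf)
open Pool.Agent.Helper76.LG (VLeafX)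

noncomputable section

/-- one leaf -/
theorem vleaf_ud {S : Sp} {N v g : ℕ} {Q : S.VV N} {V La : ∀ k, Setoid (S.F k).Ω} {σ : Fin v → Fin N} {b : ℝ}
    {hb : 0 < b} {Y : S.VV v} {n : ℕ → ℝ} {c : ∀ k, (S.F k).Ω → Fin v → ℤ}
    {f : Leaf (S.chg S.tr b hb) (Q.chg S.tr b hb) (lin g)} (y : VLeaf V Q σ b hb g La Y n c f)
    (T : Sp) (p : Pj T (S.chg S.tr b hb)) (B : ∀ k, (T.F k).Ω → Prop) (hB : 0 < ul (T.pr B)) {a a' : ℝ}
    (h0 : 0 ≤ a) (h1 : a' ≤ 1) :
    (v : ℝ) * (a' - a) ≤ ul (fun k => h (fc (Setoid.ker ((((Q.chg S.tr b hb)).im p B).cellv a' k)))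
      ((f.im p B hB).win a k) / ((Sp.im p B).F k).n) := by
  have key := par_ud (f.im p B hB) (fun j => σ (Fin.cast y.e j)) n (fun k ω j => c k ω (Fin.cast y.e j))
    (chg_sub S.tr b hb y.subN) (Eventually.of_forall fun k ω _ j => by
      have h2 := y.par k ω (Fin.cast y.e j)
      have h3 := y.eY k ω (Fin.cast y.e j)
      exact h2.trans h3) (by
      filter_upwards [y.msc] with k hk ω ω' h2 h3 h4 h5
      have h6 : La k ω ω' := by
        rw [← y.eLa]
        exact h5
      have h7 := hk ω ω' (FSp.im_supp (p.fp k) (B k) ω h2) (FSp.im_supp (p.fp k) (B k) ω' h3) h4.2 h6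
      funext j
      exact congrFun h7 _) h0 h1
  have e1 : ((f.im p B hB).e : ℝ) = v := by
    have h2 : (f.im p B hB).e = v := y.e
    exact_mod_cast h2
  rw [e1] at key
  exact key

theorem st_UDV : Pool.Agent.Helper87.NSL.ST_UDV := by
  intro S N v g L r D Q V La σ b hb G Y n c β A f hb1 hcut hleaf i T p B hB a a' h0 h01 h1
  exact vleaf_ud (hleaf i).toVLeaf T p B hB h0 h1

end

end Pool.Agent.Helper69.UDV
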